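import Pool.Agent.CZF.Main
import Pool.Agent.CZF.A3

/-!
# Short factors of `b + ζ` in `ℤ[ζ]` (MP_ce8d0c_nt)

`Q(b, p) = (b ^ p + 1) / (b + 1)` is the norm of `b + ζ`, `ζ` a primitive `p`-th root of unity, `p` an odd prime.
Let `b` be neither `a ^ m` with `m ≥ 3` odd nor `4 k ^ 4`, and let `p` not divide `b + 1`. Then `b + ζ` has no nontrivial
factorisation `α β` in `ℤ[ζ]` in which `α` is an integral polynomial of degree `d` in a power of `ζ`, with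
`100 d log (b L) ≤ p`, `L` the sum of the absolute values of its coefficients. If `x` is an integral form of degree `D` in
`w` powers of `ζ`, with `29 (29 D log b) ^ (w - 1) log (b L) ≤ p` (for `w = 2`, for instance, a polynomial of degree at most `D`
in one power of `ζ`, the other one being `1`), then `b + ζ` divides `x` or every common divisor of `x` and `b + ζ`
in `ℤ[ζ]` is a unit. For the excluded bases there is a `w` such that for all large primes `p` there are nontrivial factorisations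
`b + ζ = α β` with `α` a sum of at most `w` numbers `± ζ ^ e` (`a + ζ'` and the Aurifeuillian factors).

Sketch. Polynomials: let `α = F(ξ)`, `ξ ^ s = ζ`. An irreducible factor `P` of `F` which divides the reversed polynomial `F*` has
a unit `P(ξ)`, as `b + ξ ^ s` and `b + ξ ^ (-s)` are coprime. If `P` does not divide `F*`, then no root of `P` is on the unit circle,
and since the resultant of `P` and `F*` is not `0`, `∏ min(1, d |1 - |ρ| ^ 2|) ≥ L ^ (-g) M ^ (-2 d)` over the roots `ρ` of `P`,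
`g` the degree and `M` the Mahler measure of `P`; so the norm of `P(ξ)` is at least `(4 L) ^ (-g) M ^ (p - 3 - 2 d)`. It divides
the resultant of `P` and `X ^ k + b` (or `b X ^ k + 1`), `k < p / 2`, which is at most `(b + 1) ^ g M ^ k`. As `P` is not
reciprocal, `M ≥ 5 / 4` (a weak form of Smyth's theorem, proved here), so the resultant is `0`, and then `P = ± (X ^ k + b)` by the
Vahlen-Capelli theorem and `β` is a unit.

Forms: let `y` be a divisor of `b + ζ` which is not a unit. Its norm `N` is at least `(7 / 2) ^ ((p - 1) / 8)`, by the method of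
Amoroso and Dvornicich: let `σ ζ = ζ ^ 7`, and let `y'` be the complex conjugate of `y`. Then `7` divides
`σ(y) y' ^ 7 - σ(y') y ^ 7`, which is not `0`, as `y` is coprime to `y'` and to `σ(y)`, and which is at most `2 |σ(y)| |y| ^ 7` in
absolute value; so `7 ^ (p - 1) ≤ 2 ^ (p - 1) N ^ 8` (file `CZF.ND`). If `y` divides `x = F(ζ ^ e_1, ..., ζ ^ e_w)` too, then `y` divides
the integers `z = F((-b) ^ e_1, ..., (-b) ^ e_w)` and `b ^ p + 1`, as `b + ζ` divides `x - z` and `b ^ p + 1`. So `N` is at most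
`gcd (z, b ^ p + 1)`. If `b ^ p + 1` divides `z`, then `b + ζ` divides `x`. If not, the gcd is at most
`b ^ (2 p / A) (b ^ 2 L) ^ ((A D) ^ (w - 1))`, where `A = ⌈27 log b⌉`, by the method of the theorem `ShortFormulas`
(file `CZF.FI`), a contradiction (file `CZF.A3`).
-/

set_option autoImplicit false

open Polynomial

namespace Pool.Agent.Results.MP_ce8d0c_nt.CyclotomicFactors

/-- For every primitive `p`-th root of unity `ζ` and every factorisation `b + ζ = α β` in `ℤ[ζ]` such that `α` satisfies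
`R ζ`, one of the factors `α`, `β` is a unit of `ℤ[ζ]`. -/
def OnlyTrivial (b p : ℕ) (R : ℂ → ℂ → Prop) : Prop :=
  ∀ ζ : ℂ, IsPrimitiveRoot ζ p → ∀ α β : Algebra.adjoin ℤ ({ζ} : Set ℂ), (α : ℂ) * (β : ℂ) = b + ζ →
    R ζ α → IsUnit α ∨ IsUnit β

/-- For every primitive `p`-th root of unity `ζ` and every `x` in `ℤ[ζ]` which satisfies `R ζ`: `b + ζ` divides `x` in `ℤ[ζ]`, or
every common divisor `y` of `x` and `b + ζ` in `ℤ[ζ]` is a unit of `ℤ[ζ]`. -/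
def NoCommon (b p : ℕ) (R : ℂ → ℂ → Prop) : Prop :=
  ∀ ζ : ℂ, IsPrimitiveRoot ζ p → ∀ x : Algebra.adjoin ℤ ({ζ} : Set ℂ), R ζ x →
    (∃ t : Algebra.adjoin ℤ ({ζ} : Set ℂ), (x : ℂ) = (b + ζ) * (t : ℂ)) ∨
      ∀ y u v : Algebra.adjoin ℤ ({ζ} : Set ℂ), (y : ℂ) * (u : ℂ) = x → (y : ℂ) * (v : ℂ) = b + ζ → IsUnit y

/-- `x` is a sum of at most `w` numbers `± ζ ^ e`. -/
def IsShort (w : ℕ) (ζ x : ℂ) : Prop :=
  ∃ (ε : Fin w → ℤ) (e : Fin w → ℕ), (∀ j, |ε j| ≤ 1) ∧ x = ∑ j, (ε j : ℂ) * ζ ^ e j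

theorem eventually_le (b w : ℕ) : ∃ p₀ : ℕ, ∀ p : ℕ, p₀ < p →
    (210 * Real.log ((b : ℝ) * w)) ^ w ≤ p := by
  refine ⟨⌈(210 * Real.log ((b : ℝ) * w)) ^ w⌉₊, fun p hp => ?_⟩
  exact (Nat.le_ceil _).trans (by exact_mod_cast hp.le)

theorem eventually_le2 (b w D : ℕ) : ∃ p₀ : ℕ, ∀ p : ℕ, p₀ < p →
    29 * (29 * (D : ℝ) * Real.log b) ^ (w - 1) * Real.log ((b : ℝ) * w) ≤ p := by
  refine ⟨⌈29 * (29 * (D : ℝ) * Real.log b) ^ (w - 1) * Real.log ((b : ℝ) * w)⌉₊, fun p hp => ?_⟩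
  exact (Nat.le_ceil _).trans (by exact_mod_cast hp.le)

theorem short_of_sums (b : ℕ) (hb : 2 ≤ b) (f : ℕ → ℕ → Prop) (hf : ∀ w, ∃ p₀ : ℕ, ∀ p, p₀ < p → f w p)
    (h : ∀ p w : ℕ, p.Prime → p ≠ 2 → ¬ p ∣ b + 1 → 1 ≤ w → f w p → ∀ (c : Fin w → ℤ) (e : Fin w → ℕ),
      ∑ j, |c j| ≤ (w : ℤ) → OnlyTrivial b p (fun ζ x => x = ∑ j, (c j : ℂ) * ζ ^ e j)) (w : ℕ) :
    ∃ p₀ : ℕ, ∀ p : ℕ, p.Prime → p₀ < p → OnlyTrivial b p (IsShort w) := by
  rcases Nat.lt_or_ge w 2 with hw | hw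
  · exact ⟨0, fun p hp _ ζ hζ α β hαβ hα => Or.inl (CZF.short_one b hb p w (by omega) hp ζ hζ α β hαβ hα)⟩
  · obtain ⟨p₀, h0⟩ := hf w
    refine ⟨p₀ + b + 2, fun p hp hpp ζ hζ α β hαβ hα => ?_⟩
    obtain ⟨ε, e, hε, hsum⟩ := hα
    refine h p w hp (by omega) (fun hd => ?_) (by omega) (h0 p (by omega)) ε e ?_ ζ hζ α β hαβ hsum
    · have := Nat.le_of_dvd (by omega) hd; omega
    · calc ∑ j, |ε j| ≤ ∑ _j : Fin w, (1:ℤ) := Finset.sum_le_sum fun j _ => hε j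
        _ = w := by simp

theorem NoCommon.only {b p : ℕ} {R : ℂ → ℂ → Prop} (hb : 2 ≤ b) (hp : p.Prime) (h : NoCommon b p R) :
    OnlyTrivial b p R := by
  intro ζ hζ α β hαβ hα
  have hα0 : (α : ℂ) ≠ 0 := fun h => CZF.b_add_ne b p hb hp ζ hζ (by rw [← hαβ, h, zero_mul])
  rcases h ζ hζ α hα with ⟨t, ht⟩ | h1
  · right
    refine IsUnit.of_mul_eq_one t (Subtype.ext ?_)
    show (β : ℂ) * (t : ℂ) = 1
    have h2 : (α : ℂ) * ((β : ℂ) * (t : ℂ)) = (α : ℂ) * 1 := by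
      rw [← mul_assoc, hαβ, ← ht, mul_one]
    exact mul_left_cancel₀ hα0 h2
  · left
    exact h1 α 1 β (by simp) hαβ

theorem result (b : ℕ) (hb : 2 ≤ b) : List.TFAE [
    ¬ ((∃ a m : ℕ, 2 ≤ a ∧ 3 ≤ m ∧ Odd m ∧ b = a ^ m) ∨ (∃ k : ℕ, 1 ≤ k ∧ b = 4 * k ^ 4)),
    ∀ (p t L : ℕ) (F : ℤ[X]), p.Prime → p ≠ 2 → ¬ p ∣ b + 1 → ¬ p ∣ t → 1 ≤ L →
      ∑ i ∈ F.support, |F.coeff i| ≤ (L : ℤ) → 100 * (F.natDegree : ℝ) * Real.log ((b : ℝ) * L) ≤ p →
      OnlyTrivial b p (fun ζ x => x = aeval (ζ ^ t) F),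
    ∀ (p w D N L : ℕ) (c : Fin N → ℤ) (m : Fin N → Fin w → ℕ) (e : Fin w → ℕ), p.Prime → p ≠ 2 → ¬ p ∣ b + 1 →
      1 ≤ w → 1 ≤ D → 1 ≤ L → (∀ i, ∑ j, m i j = D) → ∑ i, |c i| ≤ (L : ℤ) →
      29 * (29 * D * Real.log b) ^ (w - 1) * Real.log ((b : ℝ) * L) ≤ p →
      NoCommon b p (fun ζ x => x = ∑ i, (c i : ℂ) * ∏ j, (ζ ^ e j) ^ m i j),
    ∀ w : ℕ, ∃ p₀ : ℕ, ∀ p : ℕ, p.Prime → p₀ < p → NoCommon b p (IsShort w),
    ∀ w n : ℕ, ∃ p : ℕ, p.Prime ∧ n < p ∧ OnlyTrivial b p (IsShort w)] := by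
  have hex : ¬ ((∃ a m : ℕ, 2 ≤ a ∧ 3 ≤ m ∧ Odd m ∧ b = a ^ m) ∨ (∃ k : ℕ, 1 ≤ k ∧ b = 4 * k ^ 4)) →
      (∀ a m : ℕ, 3 ≤ m → Odd m → a ^ m ≠ b) ∧ (∀ k : ℕ, 4 * k ^ 4 ≠ b) := by
    intro h
    refine ⟨?_, ?_⟩
    · intro a m hm hodd he
      apply h
      refine Or.inl ⟨a, m, ?_, hm, hodd, he.symm⟩
      by_contra hlt
      have : a = 0 ∨ a = 1 := by omega
      rcases this with rfl | rfl
      · rw [zero_pow (by omega)] at he; omega
      · rw [one_pow] at he; omega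
    · intro k he
      apply h
      refine Or.inr ⟨k, ?_, he.symm⟩
      by_contra hlt
      have : k = 0 := by omega
      subst this
      norm_num at he; omega
  tfae_have 1 → 2 := by
    intro h p t L F hp hp2 hnd ht hL hlen H ζ hζ α β hαβ hα
    obtain ⟨h1, h4⟩ := hex h
    have hp3 : 3 ≤ p := by have := hp.two_le; omega
    exact CZF.main_deg b hb h1 h4 p L hp hp3 hnd hL ζ hζ t ht F hlen H α β hαβ hα
  tfae_have 2 → 5 := by
    intro h w n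
    suffices hs : ∃ p₀ : ℕ, ∀ p : ℕ, p.Prime → p₀ < p → OnlyTrivial b p (IsShort w) by
      obtain ⟨p₀, h0⟩ := hs
      obtain ⟨p, hp1, hp2⟩ := Nat.exists_infinite_primes (p₀ + n + 1)
      exact ⟨p, hp2, by omega, h0 p hp2 (by omega)⟩
    clear n
    refine short_of_sums b hb (fun w p => (210 * Real.log ((b : ℝ) * w)) ^ w ≤ p) (fun w => eventually_le b w) ?_ w
    clear w
    intro p w hp hp2 hnd hw H c e hc ζ hζ α β hαβ hsum
    obtain ⟨L, hLw⟩ : ∃ L : ℕ, L = w := ⟨w, rfl⟩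
    have hL : 1 ≤ L := by omega
    replace hc : ∑ j, |c j| ≤ (L : ℤ) := by rw [hLw]; exact hc
    replace H : (210 * Real.log ((b : ℝ) * L)) ^ w ≤ p := by rw [hLw]; exact H
    obtain ⟨N, hN, hNp, HN⟩ := CZF.NU5 L b p w hL hb hw H
    have hα0 : (α : ℂ) ≠ 0 := fun h => CZF.b_add_ne b p hb hp ζ hζ (by rw [← hαβ, h, zero_mul])
    obtain ⟨ξ, s, F, t, hξ, hs1, hsp, hξs, hF0, hlen, hFN, hev⟩ :=
      CZF.short_poly p w N hp hN hNp ζ hζ e c L hc α hsum hα0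
    have : NeZero p := ⟨hp.ne_zero⟩
    obtain ⟨i, hip, hi⟩ := hζ.eq_pow_of_pow_eq_one hξ.pow_eq_one
    have hpi : ¬ p ∣ i := by
      intro hd
      have hi0 : i = 0 := Nat.eq_zero_of_dvd_of_lt hd hip
      rw [hi0, pow_zero] at hi
      exact hξ.ne_one hp.one_lt hi.symm
    have hmem : ∀ n : ℕ, ξ ^ n ∈ Algebra.adjoin ℤ ({ζ} : Set ℂ) := by
      intro n
      rw [← hi, ← pow_mul]
      exact Subalgebra.pow_mem _ (Algebra.self_mem_adjoin_singleton ℤ ζ) _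
    obtain ⟨q, rfl⟩ : ∃ q, p = q + 1 := ⟨p - 1, by have := hp.pos; omega⟩
    have h1 : ξ ^ t * ξ ^ (q * t) = 1 := by
      rw [← pow_add, show t + q * t = (q + 1) * t by ring, pow_mul, hξ.pow_eq_one, one_pow]
    have hprod : (⟨ξ ^ t, hmem t⟩ * ⟨ξ ^ (q * t), hmem _⟩ : Algebra.adjoin ℤ ({ζ} : Set ℂ)) = 1 :=
      Subtype.ext h1
    have hu1 : IsUnit (⟨ξ ^ t, hmem t⟩ : Algebra.adjoin ℤ ({ζ} : Set ℂ)) := IsUnit.of_mul_eq_one _ hprod
    have hu2 : IsUnit (⟨ξ ^ (q * t), hmem _⟩ : Algebra.adjoin ℤ ({ζ} : Set ℂ)) :=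
      IsUnit.of_mul_eq_one _ (by rw [mul_comm]; exact hprod)
    have h2 := h (q + 1) i L F hp hp2 hnd hpi hL hlen (HN _ hFN) ζ hζ (α * ⟨ξ ^ t, hmem t⟩) (β * ⟨ξ ^ (q * t), hmem _⟩)
      (by
        show ((α : ℂ) * ξ ^ t) * ((β : ℂ) * ξ ^ (q * t)) = b + ζ
        rw [← hαβ]
        linear_combination (α : ℂ) * β * h1)
      (by
        show (α : ℂ) * ξ ^ t = aeval (ζ ^ i) F
        rw [hi]; exact hev)
    rcases h2 with h3 | h3
    · exact Or.inl ((IsUnit.mul_iff.mp h3).1)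
    · exact Or.inr ((IsUnit.mul_iff.mp h3).1)
  tfae_have 1 → 3 := by
    intro h p w D N L c m e hp hp2 hnd hw hD hL hm hc H ζ hζ x hx
    by_contra hcon
    rw [not_or] at hcon
    obtain ⟨hc1, hc2⟩ := hcon
    apply hc2
    intro y u v h1 h2
    rcases CZF.common_form b hb h p w D N L hp hp2 hnd hw hD hL H ζ hζ x y u v h1 h2 c m e hm hc hx with h3 | h3
    · exact absurd h3 hc1
    · exact h3
  tfae_have 3 → 4 := by
    intro h w
    rcases Nat.eq_zero_or_pos w with hw | hw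
    · subst hw
      refine ⟨0, fun p _ _ ζ _ x hx => Or.inl ⟨0, ?_⟩⟩
      obtain ⟨ε, e, _, hsum⟩ := hx
      rw [hsum]
      simp
    · obtain ⟨p₀, h0⟩ := eventually_le2 b w 1
      refine ⟨p₀ + b + 2, fun p hp hpp ζ hζ x hx => ?_⟩
      obtain ⟨ε, e, hε, hsum⟩ := hx
      refine h p w 1 w w ε (fun i j => if j = i then 1 else 0) e hp (by omega) (fun hd => ?_) hw le_rfl hw
        (fun i => by simp) ?_ (h0 p (by omega)) ζ hζ x ?_
      · have := Nat.le_of_dvd (by omega) hd; omega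
      · calc ∑ j, |ε j| ≤ ∑ _j : Fin w, (1:ℤ) := Finset.sum_le_sum fun j _ => hε j
          _ = w := by simp
      · rw [hsum]
        refine Finset.sum_congr rfl fun i _ => ?_
        congr 1
        rw [Finset.prod_eq_single i]
        · rw [if_pos rfl, pow_one]
        · intro j _ hj
          rw [if_neg hj, pow_zero]
        · intro hi; exact absurd (Finset.mem_univ i) hi
  tfae_have 4 → 5 := by
    intro h w n
    obtain ⟨p₀, h0⟩ := h w
    obtain ⟨p, hp1, hp2⟩ := Nat.exists_infinite_primes (p₀ + n + 1)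
    exact ⟨p, hp2, by omega, (h0 p hp2 (by omega)).only hb hp2⟩
  tfae_have 5 → 1 := by
    intro h hcon
    have hcon' : ¬ ((∀ a m : ℕ, 3 ≤ m → Odd m → a ^ m ≠ b) ∧ (∀ c : ℕ, 4 * c ^ 4 ≠ b)) := by
      rintro ⟨h1, h4⟩
      rcases hcon with ⟨a, m, _, hm, hodd, he⟩ | ⟨k, _, he⟩
      · exact h1 a m hm hodd he.symm
      · exact h4 k he.symm
    obtain ⟨w, p₀, hx⟩ := CZF.excluded b hb hcon'
    obtain ⟨p, hp, hpn, ht⟩ := h w p₀
    have hζ : IsPrimitiveRoot (Complex.exp (2 * Real.pi * Complex.I / p)) p :=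
      Complex.isPrimitiveRoot_exp p hp.ne_zero
    obtain ⟨α, β, h1, h2, h3, h4⟩ := hx p hp hpn _ hζ
    rcases ht _ hζ α β h1 h2 with h5 | h5
    · exact h3 h5
    · exact h4 h5
  tfae_finish

end Pool.Agent.Results.MP_ce8d0c_nt.CyclotomicFactors
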