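import Pool.Agent.HQB.Main
import Pool.Agent.WGS.Fw3
import Pool.Agent.WGS.Fw4

/-!
# Divisors of `(b ^ n + 1) / (b + 1)` given by one linear recurrence sequence (MP_ce8d0c_nt)

For a base `b ≥ 2` the following are equivalent: `b` admits one of the two algebraic factorisations of the problem,
`b = a ^ m` with `m ≥ 3` odd or `b = 4 k ^ 4`; some integral linear recurrence sequence `f` gives a nontrivial divisor of
`Q(b, n) = (b ^ n + 1) / (b + 1)` for all `n > 1` prime to a fixed `M`; some complex linear recurrence sequence gives a nontrivial integral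
divisor of `Q(b, n)` for all large `n` in one arithmetic progression `r mod T` with `r` prime to `T`. Nothing is assumed of the cofactor.

Sketch. Let `f(k) g(k) = b ^ (r + T k) + 1` with integers `f(k)`, `g(k)`, `f` a linear recurrence sequence. Its characteristic roots and
coefficients are algebraic. By a Chebotarev type theorem for the Kummer extension generated by the `q`-th root of `b`, over a number field
containing these numbers, there are many primes `p` of degree one at which `b` is not a `q`-th power (`q` a large prime), and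
such a `p` does not divide `b ^ n + 1` for `n` prime to `q`. First, the coefficients of `f` are constant: otherwise one of these `p` would divide
`f(k)` for a suitable `k`. Then the iterated differences of step `p - 1` of `f`, and so of `g`, on the
progression `q ℕ` are divisible by powers of a prime over `p`, so the Hankel determinants of `g` are divisible by high powers of `p`; the sum of `1/p` over these
primes diverges, so the determinants vanish from some point on, and `g` is a linear recurrence sequence by Kronecker's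
criterion (a case of the Hadamard quotient theorem of Pourchet and van der Poorten). Now the theorem on two factors (`RecurrenceFactors`)
applies.
-/

set_option autoImplicit false

namespace Pool.Agent.Results.MP_ce8d0c_nt.OneFactor

/-- `u` satisfies a linear recurrence with constant coefficients:
`c 0 * u n + c 1 * u (n + 1) + ... + c d * u (n + d) = 0` for all `n`, where `c d ≠ 0`. -/
def IsLinearRecurrence (u : ℕ → ℂ) : Prop :=
  ∃ (d : ℕ) (c : ℕ → ℂ), c d ≠ 0 ∧ ∀ n, ∑ i ∈ Finset.range (d + 1), c i * u (n + i) = 0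

theorem result (b : ℕ) (hb : 2 ≤ b) : List.TFAE [
    (∃ a m : ℕ, 2 ≤ a ∧ 3 ≤ m ∧ Odd m ∧ b = a ^ m) ∨ (∃ k : ℕ, 1 ≤ k ∧ b = 4 * k ^ 4),
    ∃ f : ℕ → ℤ, IsLinearRecurrence (fun n => (f n : ℂ)) ∧ ∃ M : ℕ, 1 ≤ M ∧
      ∀ n : ℕ, 1 < n → n.Coprime M →
        ∃ y : ℤ, 1 < |f n| ∧ 1 < |y| ∧ ((b : ℤ) + 1) * (f n * y) = (b : ℤ) ^ n + 1,
    ∃ f : ℕ → ℂ, IsLinearRecurrence f ∧ ∃ T r n₀ : ℕ, 1 ≤ T ∧ r.Coprime T ∧
      ∀ n : ℕ, n₀ ≤ n → n ≡ r [MOD T] →
        ∃ x y : ℤ, f n = x ∧ 1 < |x| ∧ 1 < |y| ∧ ((b : ℤ) + 1) * (x * y) = (b : ℤ) ^ n + 1] := by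
  tfae_have 1 → 2 := by
    rintro (⟨a, m, ha, hm, hmo, rfl⟩ | ⟨k, hk, rfl⟩)
    · obtain ⟨f, g, hf, -, h⟩ := WGS.fwd_pow2 a m ha hm hmo
      refine ⟨f, hf, 2 * (m * m.factorial), ?_, fun n hn hc => ?_⟩
      · have := Nat.factorial_pos m
        have : 0 < m * m.factorial := Nat.mul_pos (by omega) this
        omega
      · have h1 : n.Coprime 2 := Nat.Coprime.coprime_mul_right_right hc
        have h2 : n.Coprime (m * m.factorial) := Nat.Coprime.coprime_mul_left_right hc
        have h3 : n.Coprime m := Nat.Coprime.coprime_mul_right_right h2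
        have h4 : n.Coprime m.factorial := Nat.Coprime.coprime_mul_left_right h2
        have h5 := WGS.rgh_gt hn h4
        exact ⟨g n, h n h5 (Nat.coprime_two_right.1 h1) h3.symm⟩
    · obtain ⟨f, g, hf, -, h⟩ := WGS.fwd_four2 k hk
      refine ⟨f, hf, Nat.factorial 3, by decide, fun n hn hc => ?_⟩
      have h1 : n.Coprime 2 := Nat.Coprime.coprime_dvd_right (by decide) hc
      exact ⟨g n, h n (WGS.rgh_gt hn hc) (Nat.coprime_two_right.1 h1)⟩
  tfae_have 2 → 3 := by
    rintro ⟨f, hf, M, hM, h⟩
    refine ⟨fun n => f n, hf, M, 1, 2, hM, Nat.coprime_one_left M, fun n hn hmod => ?_⟩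
    have hc : n.Coprime M := by
      have h1 : Nat.gcd n M = Nat.gcd 1 M := hmod.gcd_eq
      rw [Nat.Coprime, h1, Nat.gcd_one_left]
    obtain ⟨y, h1, h2, h3⟩ := h n (by omega) hc
    exact ⟨f n, y, rfl, h1, h2, h3⟩
  tfae_have 3 → 1 := by
    rintro ⟨f, hf, T, r, n₀, hT, hrT, h⟩
    exact HQB.one_factor b hb f hf T r n₀ hT hrT h
  tfae_finish

end Pool.Agent.Results.MP_ce8d0c_nt.OneFactor
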