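import Pool.Agent.WGS.Main2
import Pool.Agent.WGS.Fw3
import Pool.Agent.WGS.Fw4

/-!
# Factorisations of `(b ^ n + 1) / (b + 1)` in linear recurrence sequences (MP_ce8d0c_nt)

For a base `b ≥ 2` the following are equivalent: `b` admits one of the two algebraic factorisations of the problem,
`b = a ^ m` with `m ≥ 3` odd or `b = 4 k ^ 4`; the numbers `Q(b, n) = (b ^ n + 1) / (b + 1)` are products of two integral
linear recurrence sequences at all `n > 1` prime to a fixed `M`; there are complex linear recurrence sequences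
`f`, `g` such that for every `M` there is some `n > 1` prime to `M` at which `f(n)`, `g(n)` are integers of absolute value greater than `1` with
product `Q(b, n)`.

Sketch. A complex linear recurrence sequence has a rational shadow, a rational one which agrees with it wherever it is rational
(reduction modulo a maximal ideal of the finitely generated algebra of its terms, and a linear functional), so `f`, `g` may
be taken rational. By the Skolem-Mahler-Lech theorem (Hansel's `p`-adic proof) the identity
`(b + 1) f(n) g(n) = b ^ n + 1` holds on an arithmetic progression containing, for each `M`, one of the good `n` prime to `M`. Written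
as exponential polynomials the factors are elements of the group ring of a finitely generated torsion-free
group times `ℕ`; by a unique-sums argument in the quotient by the saturation of `b` they are, after a further
decimation, `w ^ l P(B ^ l)` and `w ^ (-l) Q(B ^ l)` with `P Q = b ^ ρ X ^ e + 1`, `B = b ^ τ`. Comparing minimal polynomials,
`w` is rational, and so are the coefficients of `P`, `Q`. Neither `P` nor `Q` is constant, because a fixed prime `q` does not divide
`Q(b, n)` for odd `n` prime to `q (q - 1)`. Starting at some `n` of the progression prime to `2 e`, `b ^ n X ^ e + 1` is reducible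
over the rational numbers, and by the Vahlen-Capelli theorem `b` is of one of the two types.
-/

set_option autoImplicit false

namespace Pool.Agent.Results.MP_ce8d0c_nt.RecurrenceFactors

/-- `u` satisfies a linear recurrence with constant coefficients:
`c 0 * u n + c 1 * u (n + 1) + ... + c d * u (n + d) = 0` for all `n`, where `c d ≠ 0`. -/
def IsLinearRecurrence (u : ℕ → ℂ) : Prop :=
  ∃ (d : ℕ) (c : ℕ → ℂ), c d ≠ 0 ∧ ∀ n, ∑ i ∈ Finset.range (d + 1), c i * u (n + i) = 0

theorem result (b : ℕ) (hb : 2 ≤ b) : List.TFAE [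
    (∃ a m : ℕ, 2 ≤ a ∧ 3 ≤ m ∧ Odd m ∧ b = a ^ m) ∨ (∃ k : ℕ, 1 ≤ k ∧ b = 4 * k ^ 4),
    ∃ f g : ℕ → ℤ, IsLinearRecurrence (fun n => (f n : ℂ)) ∧
      IsLinearRecurrence (fun n => (g n : ℂ)) ∧ ∃ M : ℕ, 1 ≤ M ∧ ∀ n : ℕ, 1 < n → n.Coprime M →
        1 < |f n| ∧ 1 < |g n| ∧ ((b : ℤ) + 1) * (f n * g n) = (b : ℤ) ^ n + 1,
    ∃ f g : ℕ → ℂ, IsLinearRecurrence f ∧ IsLinearRecurrence g ∧
      ∀ M : ℕ, 1 ≤ M → ∃ n : ℕ, 1 < n ∧ n.Coprime M ∧ (∃ x : ℤ, f n = x ∧ 1 < |x|) ∧
        (∃ y : ℤ, g n = y ∧ 1 < |y|) ∧ ((b : ℂ) + 1) * (f n * g n) = (b : ℂ) ^ n + 1] := by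
  tfae_have 1 → 2 := by
    rintro (⟨a, m, ha, hm, hmo, rfl⟩ | ⟨k, hk, rfl⟩)
    · obtain ⟨f, g, hf, hg, h⟩ := WGS.fwd_pow2 a m ha hm hmo
      refine ⟨f, g, hf, hg, 2 * (m * m.factorial), ?_, fun n hn hc => ?_⟩
      · have := Nat.factorial_pos m
        have : 0 < m * m.factorial := Nat.mul_pos (by omega) this
        omega
      · have h1 : n.Coprime 2 := Nat.Coprime.coprime_mul_right_right hc
        have h2 : n.Coprime (m * m.factorial) := Nat.Coprime.coprime_mul_left_right hc
        have h3 : n.Coprime m := Nat.Coprime.coprime_mul_right_right h2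
        have h4 : n.Coprime m.factorial := Nat.Coprime.coprime_mul_left_right h2
        have h5 := WGS.rgh_gt hn h4
        exact h n h5 (Nat.coprime_two_right.1 h1) h3.symm
    · obtain ⟨f, g, hf, hg, h⟩ := WGS.fwd_four2 k hk
      refine ⟨f, g, hf, hg, Nat.factorial 3, by decide, fun n hn hc => ?_⟩
      have h1 : n.Coprime 2 := Nat.Coprime.coprime_dvd_right (by decide) hc
      exact h n (WGS.rgh_gt hn hc) (Nat.coprime_two_right.1 h1)
  tfae_have 2 → 3 := by
    rintro ⟨f, g, hf, hg, M, hM, h⟩
    refine ⟨fun n => f n, fun n => g n, hf, hg, fun M' hM' => ?_⟩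
    have hpos : 0 < M * M' := Nat.mul_pos (by omega) (by omega)
    have hc : (M * M' + 1).Coprime (M * M') := by
      rw [Nat.coprime_comm]
      exact Nat.coprime_self_add_right.2 (Nat.coprime_one_right _)
    obtain ⟨h1, h2, h3⟩ := h (M * M' + 1) (by omega) (Nat.Coprime.coprime_mul_right_right hc)
    refine ⟨M * M' + 1, by omega, Nat.Coprime.coprime_mul_left_right hc, ⟨_, rfl, h1⟩, ⟨_, rfl, h2⟩, ?_⟩
    show ((b : ℂ) + 1) * ((f (M * M' + 1) : ℂ) * (g (M * M' + 1) : ℂ)) = (b : ℂ) ^ (M * M' + 1) + 1
    exact_mod_cast h3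
  tfae_have 3 → 1 := by
    rintro ⟨f, g, hf, hg, h⟩
    exact WGS.main3 b hb f g hf hg h
  tfae_finish

end Pool.Agent.Results.MP_ce8d0c_nt.RecurrenceFactors
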