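import Pool.Agent.WGT.Sharp

/-!
# Divisors of `(b ^ n + 1) / (b + 1)` are not given by short formulas unless `b` is excluded (MP_ce8d0c_nt)

Let `b ≥ 2` and let `z` be the value of a form of degree `D ≥ 1` with integer coefficients at `w ≥ 1` powers
`b ^ e_1, ..., b ^ e_w`. If `b` is neither `a ^ m` with `m ≥ 3` odd nor `4 k ^ 4`, `n` is odd and `z` is not a multiple of `b ^ n + 1`,
then `gcd(z, b ^ n + 1) ^ A ≤ b ^ (2 n) (b ^ 2 H) ^ (A (A D) ^ (w - 1))`, `H` the sum of the absolute values of the coefficients,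
whenever `(A D) ^ (w - 1)` is less than every prime factor of `n`. So if `z` is a multiple of a divisor `x ≥ b ^ (ε n)`
of `Q(b, n) = (b ^ n + 1) / (b + 1)` and not of `b ^ n + 1`, then `(K D) ^ (w - 1)` is at least the least prime factor of `n`, or
`n log b ≤ K (K D) ^ (w - 1) log (b H)`, `K` depending only on `ε`. For `w = 2` (polynomials in one power of `b`) this is linear in `D`
and in `log H`. For the excluded bases `Q(b, p)` has, for all large primes `p`, a divisor at least `b ^ (p / w)` with a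
multiple, not a multiple of `b ^ p + 1`, which is a sum of `w` terms `c b ^ e` with `|c| ≤ w`; here `w` depends only on `b`.

In the statement the number of powers is `k + 1 = w`.

Sketch. Multiply `z` by a power of `b` to make `e_1` a multiple of `n`. By Dirichlet's theorem there is
`d ≤ (A D) ^ (w - 1)` such that the exponents `E_i` of the monomials satisfy `|d E_i - m_i n| ≤ n / A` with integers `m_i`.
Consider `G(X) = ∑ c_i b ^ E_i X ^ m_i` modulo `F(X) = b ^ n X ^ d + 1`. At `X = 1` both are divisible by the gcd. The roots of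
`F` have absolute value `b ^ (-n / d)`, so the norm of `G` modulo `F` is small, and so are its denominators: in the basis
`b ^ ⌊i n / d⌋ X ^ i`, `i < d`, multiplication by `G` has a matrix `b ^ (-κ) M`, `κ = ⌊n / (A d)⌋ + 1`, where `M` is
integral with row sums at most `b ^ (2 κ) H`. The determinant of `M` is a multiple of the gcd. If it is not `0` this bounds
the gcd. By the Vahlen-Capelli theorem `F` is irreducible over `ℚ`, as `n` is prime to `d` and `b` is not excluded, so if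
the determinant is `0` then `F` divides `G`, and `b ^ n + 1 = F(1)` divides `G(1)`, hence `z`.
-/

set_option autoImplicit false

namespace Pool.Agent.Results.MP_ce8d0c_nt.ShortFormulas

theorem result (b : ℕ) (hb : 2 ≤ b) : List.TFAE [
    ¬ ((∃ a m : ℕ, 2 ≤ a ∧ 3 ≤ m ∧ Odd m ∧ b = a ^ m) ∨ (∃ k : ℕ, 1 ≤ k ∧ b = 4 * k ^ 4)),
    ∀ (n k D A N : ℕ) (c : Fin N → ℤ) (m : Fin N → Fin (k + 1) → ℕ) (e : Fin (k + 1) → ℕ), Odd n → 1 ≤ D →
      (∀ i, ∑ j, m i j = D) → (∀ q : ℕ, q.Prime → q ∣ n → (A * D) ^ k < q) →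
      ¬ ((b : ℤ) ^ n + 1 ∣ ∑ i, c i * ∏ j, ((b : ℤ) ^ e j) ^ m i j) →
      Int.gcd (∑ i, c i * ∏ j, ((b : ℤ) ^ e j) ^ m i j) ((b : ℤ) ^ n + 1) ^ A ≤
        b ^ (2 * n) * (b ^ 2 * ∑ i, (c i).natAbs) ^ (A * (A * D) ^ k),
    ∀ ε : ℝ, 0 < ε → ∃ K : ℕ, ∀ (n k D N x : ℕ) (c : Fin N → ℤ) (m : Fin N → Fin (k + 1) → ℕ)
      (e : Fin (k + 1) → ℕ), Odd n → 1 < n → 1 ≤ D → (∀ i, ∑ j, m i j = D) →
      x ∣ (b ^ n + 1) / (b + 1) → (b : ℝ) ^ (ε * n) ≤ x →
      (x : ℤ) ∣ ∑ i, c i * ∏ j, ((b : ℤ) ^ e j) ^ m i j →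
      ¬ ((b : ℤ) ^ n + 1 ∣ ∑ i, c i * ∏ j, ((b : ℤ) ^ e j) ^ m i j) →
      n.minFac ≤ (K * D) ^ k ∨
        n * Real.log b ≤ K * (K * D) ^ k * Real.log (b * (∑ i, (c i).natAbs : ℕ)),
    ∀ w : ℕ, ∃ p : ℕ, w < p ∧ p.Prime ∧ Odd p ∧ ∀ (x : ℕ) (c : Fin w → ℤ) (e : Fin w → ℕ),
      x ∣ (b ^ p + 1) / (b + 1) → b ^ p ≤ x ^ w → (∀ j, (c j).natAbs ≤ w) →
      (x : ℤ) ∣ ∑ j, c j * (b : ℤ) ^ e j → (b : ℤ) ^ p + 1 ∣ ∑ j, c j * (b : ℤ) ^ e j] := by
  tfae_have 1 → 2 := fun h => WGT.ineq2_of_not_exc b hb h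
  tfae_have 2 → 3 := fun h => WGT.formBd2_of_ineq2 b hb h
  tfae_have 3 → 4 := fun h => WGT.unbd_of_formBd2 b hb h
  tfae_have 4 → 1 := fun h => WGT.not_exc_of_unbd b hb h
  tfae_finish

end Pool.Agent.Results.MP_ce8d0c_nt.ShortFormulas
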